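import Mathlib

/-!
A lexicographic product of Cayley graphs that moves the threshold of a colouring problem.
-/

namespace Pool.Agent.P.MP_ba7db8_lc.All

set_option maxHeartbeats 400000

variable {G : Type*} [Group G] {a : ℕ}

/-- Quotient of two points of the star. -/
def D (z : G) (i j : Fin a) : Fin a → G := (Pi.mulSingle i z)⁻¹ * Pi.mulSingle j z

/-- Quotients of two points of the star. -/
def Dif (z : G) (h : Fin a → G) : Prop := ∃ i j, h = D z i j

theorem D_self (z : G) (i : Fin a) : D z i i = 1 := by simp [D]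

theorem D_left (z : G) {i j : Fin a} (h : i ≠ j) : D z i j i = z⁻¹ := by
  simp [D, Pi.mulSingle_eq_of_ne h]

theorem D_right (z : G) {i j : Fin a} (h : i ≠ j) : D z i j j = z := by
  simp [D, Pi.mulSingle_eq_of_ne h.symm]

theorem D_other (z : G) {i j k : Fin a} (h1 : k ≠ i) (h2 : k ≠ j) : D z i j k = 1 := by
  simp [D, Pi.mulSingle_eq_of_ne h1, Pi.mulSingle_eq_of_ne h2]

theorem D_inv (z : G) (i j : Fin a) : (D z i j)⁻¹ = D z j i := by simp [D]

theorem D_swap {z : G} (hz : z⁻¹ = z) (i j : Fin a) : D z i j = D z j i := by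
  by_cases h : i = j
  · rw [h]
  funext k
  by_cases h1 : k = i
  · rw [h1, D_left z h, D_right z (Ne.symm h), hz]
  by_cases h2 : k = j
  · rw [h2, D_right z h, D_left z (Ne.symm h), hz]
  rw [D_other z h1 h2, D_other z h2 h1]

theorem Dif.inv {z : G} {h : Fin a → G} (hh : Dif z h) : Dif z h⁻¹ := by
  obtain ⟨i, j, rfl⟩ := hh
  exact ⟨j, i, D_inv z i j⟩

theorem Dif.three {z : G} {h : Fin a → G} (hh : Dif z h) {u v w : Fin a} (h1 : u ≠ v)
    (h2 : u ≠ w) (h3 : v ≠ w) (hu : h u ≠ 1) (hv : h v ≠ 1) : h w = 1 := by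
  obtain ⟨i, j, rfl⟩ := hh
  have k : ∀ t, D z i j t ≠ 1 → t = i ∨ t = j := fun t ht => by
    by_contra hc
    push Not at hc
    exact ht (D_other z hc.1 hc.2)
  by_contra hw
  rcases k u hu with e1 | e1 <;> rcases k v hv with e2 | e2 <;> rcases k w hw with e3 | e3 <;>
    simp_all

theorem classify {z : G} (hz : z ≠ 1) {u v : Fin a} (huv : u ≠ v) {y : Fin a → G}
    (hy : Dif z y) (h : Dif z ((D z u v)⁻¹ * y)) :
    y = 1 ∨ y = D z u v ∨ y = D z v u ∨ (∃ w, w ≠ u ∧ w ≠ v ∧ y = D z u w) ∨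
      ∃ w, w ≠ u ∧ w ≠ v ∧ y = D z w v := by
  obtain ⟨i, j, rfl⟩ := hy
  by_cases hij : i = j
  · exact Or.inl (by rw [hij, D_self])
  by_cases hiu : i = u
  · subst hiu
    by_cases hjv : j = v
    · exact Or.inr (Or.inl (by rw [hjv]))
    · exact Or.inr (Or.inr (Or.inr (Or.inl ⟨j, Ne.symm hij, hjv, rfl⟩)))
  by_cases hjv : j = v
  · subst hjv
    exact Or.inr (Or.inr (Or.inr (Or.inr ⟨i, hiu, hij, rfl⟩)))
  by_cases hiv : i = v
  · subst hiv
    by_cases hju : j = u
    · exact Or.inr (Or.inr (Or.inl (by rw [hju])))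
    · have e := h.three (u := u) (v := j) (w := i) (Ne.symm hju) huv hjv
        (by simpa [D_left z huv, D_other z huv (Ne.symm hju)] using hz)
        (by simpa [D_other z hju hjv, D_right z hij] using hz)
      simp only [Pi.mul_apply, Pi.inv_apply, D_right z huv, D_left z hij] at e
      have e' : z⁻¹ = z := by simpa using eq_inv_of_mul_eq_one_left e
      exact Or.inr (Or.inr (Or.inr (Or.inr ⟨j, hju, hjv, D_swap e' _ _⟩)))
  by_cases hju : j = u
  · subst hju
    have e := h.three (u := v) (v := i) (w := j) (Ne.symm hiv) huv.symm hij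
      (by simpa [D_right z huv, D_other z (Ne.symm hiv) huv.symm] using hz)
      (by simpa [D_other z hij hiv, D_left z hij] using hz)
    simp only [Pi.mul_apply, Pi.inv_apply, D_left z huv, D_right z hij, inv_inv] at e
    have e' : z⁻¹ = z := (eq_inv_of_mul_eq_one_left e).symm
    exact Or.inr (Or.inr (Or.inr (Or.inl ⟨i, hij, hiv, D_swap e' _ _⟩)))
  · have e := h.three (u := u) (v := v) (w := i) huv (Ne.symm hiu) (Ne.symm hiv)
      (by simpa [D_left z huv, D_other z (Ne.symm hiu) (Ne.symm hju)] using hz)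
      (by simpa [D_right z huv, D_other z (Ne.symm hiv) (Ne.symm hjv)] using hz)
    simp only [Pi.mul_apply, Pi.inv_apply, D_other z hiu hiv, D_left z hij] at e
    exact absurd (by simpa using e) hz

theorem cross {z : G} (hz : z ≠ 1) {u v w w' : Fin a} (huv : u ≠ v) (h1 : w ≠ u) (h2 : w ≠ v)
    (h3 : w' ≠ u) (h4 : w' ≠ v) (h : Dif z ((D z u w)⁻¹ * D z w' v)) : w = w' := by
  by_contra hne
  have e := h.three (u := u) (v := v) (w := w) huv h1.symm h2.symm
    (by simpa [D_left z h1.symm, D_other z h3.symm huv] using hz)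
    (by simpa [D_other z huv.symm h2.symm, D_right z h4] using hz)
  simp only [Pi.mul_apply, Pi.inv_apply, D_right z h1.symm, D_other z hne h2] at e
  exact hz (by simpa using e)

theorem card_le_one_mem {z : G} (hz : z ≠ 1) (J : Finset (Fin a → G)) (h1 : 1 ∈ J)
    (hJ : ∀ x ∈ J, ∀ y ∈ J, Dif z (x⁻¹ * y)) : J.card ≤ a + 5 := by
  classical
  have hD : ∀ y ∈ J, Dif z y := fun y hy => by simpa using hJ 1 h1 y hy
  by_cases h0 : ∀ y ∈ J, y = 1
  · have : J ⊆ {1} := fun y hy => Finset.mem_singleton.2 (h0 y hy)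
    have := Finset.card_le_card this
    rw [Finset.card_singleton] at this
    omega
  push Not at h0
  obtain ⟨y0, hy0, hne⟩ := h0
  obtain ⟨u, v, rfl⟩ := hD y0 hy0
  have huv : u ≠ v := fun e => hne (by rw [e, D_self])
  have hc := fun y (hy : y ∈ J) => classify hz huv (hD y hy) (hJ _ hy0 y hy)
  have h3 : ∀ T : Finset (Fin a → G), T.card ≤ a + 2 →
      (∀ y ∈ J, y = 1 ∨ y = D z u v ∨ y = D z v u ∨ y ∈ T) → J.card ≤ a + 5 := by
    intro T hT h
    have : J ⊆ insert 1 (insert (D z u v) (insert (D z v u) T)) := fun y hy => by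
      simpa using h y hy
    have h4 := Finset.card_le_card this
    have h5 := Finset.card_insert_le 1 (insert (D z u v) (insert (D z v u) T))
    have h6 := Finset.card_insert_le (D z u v) (insert (D z v u) T)
    have h7 := Finset.card_insert_le (D z v u) T
    omega
  by_cases hA : ∃ w, w ≠ u ∧ w ≠ v ∧ D z u w ∈ J
  · by_cases hB : ∃ w, w ≠ u ∧ w ≠ v ∧ D z w v ∈ J
    · obtain ⟨w, a1, a2, a3⟩ := hA
      obtain ⟨w', b1, b2, b3⟩ := hB
      refine h3 {D z u w', D z w v} (Finset.card_le_two.trans (by omega)) fun y hy => ?_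
      rcases hc y hy with h | h | h | ⟨t, c1, c2, rfl⟩ | ⟨t, c1, c2, rfl⟩
      · exact Or.inl h
      · exact Or.inr (Or.inl h)
      · exact Or.inr (Or.inr (Or.inl h))
      · rw [cross hz huv c1 c2 b1 b2 (hJ _ hy _ b3)]
        simp
      · rw [← cross hz huv a1 a2 c1 c2 (hJ _ a3 _ hy)]
        simp
    · refine h3 (Finset.univ.image fun w => D z u w)
        (Finset.card_image_le.trans (by simp)) fun y hy => ?_
      rcases hc y hy with h | h | h | ⟨t, c1, c2, rfl⟩ | ⟨t, c1, c2, rfl⟩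
      · exact Or.inl h
      · exact Or.inr (Or.inl h)
      · exact Or.inr (Or.inr (Or.inl h))
      · exact Or.inr (Or.inr (Or.inr (Finset.mem_image.2 ⟨t, Finset.mem_univ _, rfl⟩)))
      · exact absurd ⟨t, c1, c2, hy⟩ hB
  · refine h3 (Finset.univ.image fun w => D z w v)
      (Finset.card_image_le.trans (by simp)) fun y hy => ?_
    rcases hc y hy with h | h | h | ⟨t, c1, c2, rfl⟩ | ⟨t, c1, c2, rfl⟩
    · exact Or.inl h
    · exact Or.inr (Or.inl h)
    · exact Or.inr (Or.inr (Or.inl h))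
    · exact absurd ⟨t, c1, c2, hy⟩ hA
    · exact Or.inr (Or.inr (Or.inr (Finset.mem_image.2 ⟨t, Finset.mem_univ _, rfl⟩)))

theorem card_le {z : G} (hz : z ≠ 1) (J : Finset (Fin a → G))
    (hJ : ∀ x ∈ J, ∀ y ∈ J, Dif z (x⁻¹ * y)) : J.card ≤ a + 5 := by
  classical
  rcases J.eq_empty_or_nonempty with rfl | ⟨x0, hx0⟩
  · simp
  rw [← Finset.card_image_of_injective J (mul_right_injective x0⁻¹)]
  refine card_le_one_mem hz _ (Finset.mem_image.2 ⟨x0, hx0, by simp⟩) ?_
  intro x hx y hy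
  obtain ⟨x', hx', rfl⟩ := Finset.mem_image.1 hx
  obtain ⟨y', hy', rfl⟩ := Finset.mem_image.1 hy
  simpa [mul_assoc] using hJ x' hx' y' hy'

variable {B V : Type*}

/-- The product graph. -/
def lex (z : G) (ha : 0 < a) (B : Type*) (X : SimpleGraph V) :
    SimpleGraph ((Fin a → G) × B × V) where
  Adj x y := ¬ Dif z (x.1⁻¹ * y.1) ∨ (x.1 = y.1 ∧ x.2.1 ≠ y.2.1) ∨
    (x.1 = y.1 ∧ x.2.1 = y.2.1 ∧ X.Adj x.2.2 y.2.2)
  symm := ⟨by
    rintro x y (h | ⟨h1, h2⟩ | ⟨h1, h2, h3⟩)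
    · exact Or.inl fun e => h (by simpa using e.inv)
    · exact Or.inr (Or.inl ⟨h1.symm, h2.symm⟩)
    · exact Or.inr (Or.inr ⟨h1.symm, h2.symm, h3.symm⟩)⟩
  loopless := ⟨by
    rintro x (h | ⟨-, h2⟩ | ⟨-, -, h3⟩)
    · exact h ⟨⟨0, ha⟩, ⟨0, ha⟩, by simp [D_self]⟩
    · exact h2 rfl
    · exact h3.ne rfl⟩

theorem lex_upper [Fintype G] [Fintype B] {z : G} (hz : z ≠ 1) (ha : 0 < a) {X : SimpleGraph V}
    {K : ℕ} (h : X.Colorable K) :
    (lex z ha B X).Colorable ((Fintype.card B * K / a + 1) * Fintype.card G ^ a) := by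
  classical
  obtain ⟨c⟩ := h
  let t : B × V → Fin (Fintype.card B * K) := fun x =>
    finProdFinEquiv (Fintype.equivFin B x.1, c x.2)
  let col : (Fin a → G) × B × V → Fin (Fintype.card B * K / a + 1) × (Fin a → G) := fun x =>
    (⟨t x.2 / a, Nat.lt_succ_of_le (Nat.div_le_div_right (t x.2).2.le)⟩,
      x.1 * (Pi.mulSingle ⟨t x.2 % a, Nat.mod_lt _ ha⟩ z)⁻¹)
  have hv : ∀ {x y}, (lex z ha B X).Adj x y → col x ≠ col y := by
    intro x y hxy e
    have e1 : (t x.2 : ℕ) / a = t y.2 / a := congrArg (fun w => (w.1 : ℕ)) e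
    have e2 : x.1 * (Pi.mulSingle ⟨t x.2 % a, Nat.mod_lt _ ha⟩ z)⁻¹ =
      y.1 * (Pi.mulSingle ⟨t y.2 % a, Nat.mod_lt _ ha⟩ z)⁻¹ := congrArg Prod.snd e
    have e3 : x.1⁻¹ * y.1 = D z ⟨t x.2 % a, Nat.mod_lt _ ha⟩ ⟨t y.2 % a, Nat.mod_lt _ ha⟩ := by
      rw [D, inv_mul_eq_iff_eq_mul, ← mul_assoc, e2, inv_mul_cancel_right]
    have key : x.1 = y.1 → x.2.1 = y.2.1 ∧ c x.2.2 = c y.2.2 := by
      intro h1
      have e4 : (t x.2 : ℕ) % a = t y.2 % a := by
        by_contra hne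
        have := congrFun e3 ⟨t y.2 % a, Nat.mod_lt _ ha⟩
        rw [D_right z (fun e => hne (congrArg Fin.val e)), h1] at this
        exact hz (by simpa using this.symm)
      have e5 : t x.2 = t y.2 := Fin.ext (by
        rw [← Nat.div_add_mod (t x.2) a, ← Nat.div_add_mod (t y.2) a, e1, e4])
      have e6 := finProdFinEquiv.injective e5
      exact ⟨(Fintype.equivFin B).injective (congrArg Prod.fst e6), congrArg Prod.snd e6⟩
    rcases hxy with h | ⟨h1, h2⟩ | ⟨h1, -, h3⟩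
    · exact h ⟨_, _, e3⟩
    · exact h2 (key h1).1
    · exact c.valid h3 (key h1).2
  simpa using (SimpleGraph.Coloring.mk col hv).colorable

theorem lex_lower [Fintype G] [Fintype B] {z : G} (hz : z ≠ 1) (ha : 0 < a) {X : SimpleGraph V}
    {K M : ℕ} (h : ¬ X.Colorable K) (hM : (lex z ha B X).Colorable M) :
    Fintype.card G ^ a * Fintype.card B * (K + 1) ≤ M * (a + 5) := by
  classical
  obtain ⟨c⟩ := hM
  have := Finset.card_mul_le_card_mul (s := (Finset.univ : Finset ((Fin a → G) × B)))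
    (t := (Finset.univ : Finset (Fin M))) (fun l m => ∃ v, c (l.1, l.2, v) = m) (m := K + 1)
    (n := a + 5) ?_ ?_
  · simpa using this
  · intro l _
    by_contra hlt
    apply h
    let S := Finset.univ.bipartiteAbove (fun (l : (Fin a → G) × B) (m : Fin M) =>
      ∃ v, c (l.1, l.2, v) = m) l
    have hS : X.Colorable (Fintype.card S) :=
      (SimpleGraph.Coloring.mk (fun v => (⟨c (l.1, l.2, v), by
        simp only [S, Finset.mem_bipartiteAbove, Finset.mem_univ, true_and]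
        exact ⟨v, rfl⟩⟩ : S)) fun {u v} huv e =>
          c.valid (v := (l.1, l.2, u)) (w := (l.1, l.2, v)) (Or.inr (Or.inr ⟨rfl, rfl, huv⟩))
            (congrArg Subtype.val e)).colorable
    refine hS.mono ?_
    rw [Fintype.card_coe]
    exact Nat.lt_succ_iff.1 (not_le.1 hlt)
  · intro m _
    rw [← Finset.card_image_of_injOn (f := Prod.fst)]
    · refine card_le hz _ fun x hx y hy => ?_
      obtain ⟨l, hl, rfl⟩ := Finset.mem_image.1 hx
      obtain ⟨l', hl', rfl⟩ := Finset.mem_image.1 hy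
      obtain ⟨u, hu⟩ := (Finset.mem_bipartiteBelow _).1 hl |>.2
      obtain ⟨v, hv⟩ := (Finset.mem_bipartiteBelow _).1 hl' |>.2
      by_contra hc
      exact c.valid (v := (l.1, l.2, u)) (w := (l'.1, l'.2, v)) (Or.inl hc) (hu.trans hv.symm)
    · intro l hl l' hl' e
      obtain ⟨u, hu⟩ := (Finset.mem_bipartiteBelow _).1 (Finset.mem_coe.1 hl) |>.2
      obtain ⟨v, hv⟩ := (Finset.mem_bipartiteBelow _).1 (Finset.mem_coe.1 hl') |>.2
      refine Prod.ext e ?_
      by_contra hc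
      exact c.valid (v := (l.1, l.2, u)) (w := (l'.1, l'.2, v)) (Or.inr (Or.inl ⟨e, hc⟩))
        (hu.trans hv.symm)

theorem lex_cayley (z : G) (ha : 0 < a) (j : ℕ) {n : ℕ} {X : SimpleGraph V}
    {C : Set (Fin n → G)} (h1 : 1 ∉ C) (h2 : C⁻¹ = C) (f : X ≃g SimpleGraph.mulCayley C) :
    ∃ C' : Set (Fin (a + (j + n)) → G), 1 ∉ C' ∧ C'⁻¹ = C' ∧
      Nonempty (lex z ha (Fin j → G) X ≃g SimpleGraph.mulCayley C') := by
  let e : (Fin (a + (j + n)) → G) ≃ (Fin a → G) × (Fin j → G) × (Fin n → G) :=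
    (Fin.appendEquiv a (j + n)).symm.trans
      (Equiv.prodCongr (Equiv.refl _) (Fin.appendEquiv j n).symm)
  have he : ∀ u v, e (u⁻¹ * v) = (e u)⁻¹ * e v := fun u v => rfl
  have hC : ∀ u v : Fin n → G, (SimpleGraph.mulCayley C).Adj u v ↔ u⁻¹ * v ∈ C := by
    intro u v
    rw [SimpleGraph.mulCayley_adj]
    constructor
    · rintro ⟨-, h | h⟩
      · exact h
      · rw [← h2, Set.mem_inv]
        simpa using h
    · intro h
      refine ⟨?_, Or.inl h⟩
      rintro rfl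
      exact h1 (by simpa using h)
  let Y := lex z ha (Fin j → G) (SimpleGraph.mulCayley C)
  have hY : ∀ x y, Y.Adj x y ↔ Y.Adj 1 (x⁻¹ * y) := by
    intro x y
    simp only [Y, lex, hC, Prod.fst_one, Prod.snd_one, inv_one, one_mul, Prod.fst_mul,
      Prod.snd_mul, Prod.fst_inv, Prod.snd_inv, ne_eq, eq_inv_mul_iff_mul_eq, mul_one]
  have e1 : e 1 = 1 := rfl
  have hi : ∀ w, Y.Adj 1 (e w) → Y.Adj 1 (e w⁻¹) := by
    intro w hw
    have := (hY _ _).1 hw.symm
    rwa [← e1, ← he, mul_one, e1] at this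
  refine ⟨{w | Y.Adj 1 (e w)}, fun h => SimpleGraph.Adj.ne (G := Y) h e1.symm, ?_, ⟨⟨(Equiv.prodCongr (Equiv.refl _)
    (Equiv.prodCongr (Equiv.refl _) f.toEquiv)).trans e.symm, ?_⟩⟩⟩
  · ext w
    exact ⟨fun h => by simpa using hi _ h, fun h => hi _ h⟩
  · intro x y
    have hadj : ∀ u v, (SimpleGraph.mulCayley {w | Y.Adj 1 (e w)}).Adj u v ↔
        Y.Adj (e u) (e v) := by
      intro u v
      rw [SimpleGraph.mulCayley_adj, Set.mem_ofPred_eq, Set.mem_ofPred_eq, he, he, ← hY, ← hY]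
      constructor
      · rintro ⟨-, h | h⟩
        · exact h
        · exact h.symm
      · exact fun h => ⟨fun e' => h.ne (by rw [e']), Or.inl h⟩
    rw [hadj]
    simp only [Equiv.trans_apply, Equiv.apply_symm_apply]
    exact or_congr Iff.rfl (or_congr Iff.rfl (and_congr Iff.rfl (and_congr Iff.rfl
      f.map_rel_iff)))

theorem numbers {g : ℕ} (hg : 2 ≤ g) (K M : ℕ)
    (hM : (8 * g * K + 2) * g ^ (8 * g * K + 2) ≤ M) :
    ∃ a j : ℕ, 0 < a ∧ (g ^ j * K / a + 1) * g ^ a ≤ M ∧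
      M * (a + 5) < g ^ a * g ^ j * (K + 1) := by
  classical
  have hgp : 0 < g ^ (8 * g * K + 2) := pow_pos (by omega) _
  have hM1 : g ^ (8 * g * K + 2) ≤ M := le_trans (Nat.le_mul_of_pos_left _ (by omega)) hM
  have hM0 : 0 < M := by omega
  have hex : ∃ s, 8 * M ≤ g ^ s := ⟨8 * M, (Nat.lt_pow_self (by omega)).le⟩
  obtain ⟨s, h1, h2⟩ : ∃ s, 8 * M ≤ g ^ s ∧ g ^ s ≤ 8 * M * g := by
    refine ⟨Nat.find hex, Nat.find_spec hex, ?_⟩
    rcases h : Nat.find hex with _ | s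
    · have := Nat.find_spec hex
      rw [h, pow_zero] at this
      omega
    · have := Nat.find_min hex (m := s) (by omega)
      rw [pow_succ]
      exact Nat.mul_le_mul_right _ (not_le.1 this).le
  obtain ⟨d, hd⟩ : ∃ d, d = g ^ s * K / M := ⟨_, rfl⟩
  have d1 : d * M ≤ g ^ s * K := hd ▸ Nat.div_mul_le_self _ _
  have d2 : g ^ s * K < M * (d + 1) := hd ▸ Nat.lt_mul_div_succ _ hM0
  have d3 : d ≤ 8 * g * K := by
    rw [hd]
    apply Nat.div_le_of_le_mul
    calc g ^ s * K ≤ 8 * M * g * K := Nat.mul_le_mul_right _ h2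
      _ = _ := by ring
  have hs : 8 * g * K + 2 ≤ s := by
    rw [← Nat.pow_le_pow_iff_right (a := g) (by omega)]
    omega
  obtain ⟨j, rfl⟩ : ∃ j, s = (d + 2) + j := ⟨s - (d + 2), by omega⟩
  rw [pow_add] at h1 d1 d2
  refine ⟨d + 2, j, by omega, ?_, ?_⟩
  · have e1 : g ^ j * K / (d + 2) * (d + 2) ≤ g ^ j * K := Nat.div_mul_le_self _ _
    have e2 : (d + 2) * g ^ (d + 2) ≤ M := le_trans (Nat.mul_le_mul (by omega)
      (Nat.pow_le_pow_right (by omega) (by omega))) hM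
    have e3 := Nat.mul_le_mul_left (g ^ (d + 2)) e1
    refine Nat.le_of_mul_le_mul_left (c := d + 2) ?_ (by omega)
    nlinarith
  · nlinarith

end Pool.Agent.P.MP_ba7db8_lc.All
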