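import Mathlib
import Pool.Agent.P.MP_ba7db8_lc.Fix.Main
import Pool.Agent.P.MP_ba7db8_lc.All.Lex

/-!
Colourability with any large fixed number of colours is hard on Cayley graphs of powers of a group.
-/

namespace Pool.Agent.P.MP_ba7db8_lc.All

open Pool.Agent.Lib.Helper47 Turing Pool.Agent.P.MP_ba7db8_lc.Fix

set_option maxHeartbeats 800000

/-- A reduction of `L` to `K`-colourability, given by its adjacency predicate. -/
def Base (G : Type*) [Group G] (K : ℕ) (L : Set (List Bool)) : Prop :=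
  ∃ (N : List Bool → ℕ) (adj : List Bool → ℕ → ℕ → Prop), PT N ∧ PS N ∧
    PTP (fun y : List Bool × ℕ × ℕ => adj y.1 y.2.1 y.2.2) ∧
    ∀ x, ∃ X : SimpleGraph (Fin (N x)), (∀ u v, X.Adj u v ↔ adj x u v) ∧
      (∃ n ≥ 1, ∃ C : Set (Fin n → G), 1 ∉ C ∧ C⁻¹ = C ∧
        Nonempty (X ≃g SimpleGraph.mulCayley C)) ∧ (x ∈ L ↔ X.Colorable K)

theorem base (G : Type*) [Group G] [Finite G] {p : ℕ} (hp : p.Prime) (hpd : p ∣ Nat.card G)
    (L : Set (List Bool)) (hL : InNP L) : Base G (p ^ (p ^ 3 + 18)) L := by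
  classical
  obtain ⟨V, P, ⟨h⟩, hV⟩ := hL
  have := Fintype.ofFinite G
  have := Fact.mk hp
  rw [Nat.card_eq_fintype_card] at hpd
  have hg : 2 ≤ Fintype.card G := hp.two_le.trans (Nat.le_of_dvd Fintype.card_pos hpd)
  obtain ⟨z, hz⟩ := exists_prime_orderOf_dvd_card p hpd
  obtain ⟨lg, hlg⟩ := exists_lg hz
  let e : Fin (Fintype.card G) ≃ G := (Fintype.equivFin G).symm
  let gel : ℕ → G := fun a => if h : a < Fintype.card G then e ⟨a, h⟩ else 1
  obtain ⟨q, hqg, -, -, hd, hq⟩ := exists_par h P (Fintype.card G) p hg fun _ _ _ _ => True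
  obtain ⟨c, ε, hε⟩ := exists_equiv p (W p)
  let E : Ex p := ⟨c, p ^ (p ^ 3 + 18), fun a b => lg (gel b) - lg (gel a),
    fun a b => (gel a)⁻¹ * gel b ∈ Subgroup.zpowers z,
    fun a b => ε fun i => lg (gel (dig q.g b i)) - lg (gel (dig q.g a i))⟩
  refine ⟨fun x => Fintype.card G ^ (c + 2 * (q.l x + 1)), E.adj q,
    PT.pow (PT.const _) (E.pt_n q PT.id) (E.ps_n q PT.id), hqg ▸ E.ps_N q PT.id,
    E.ptp_adj q hd (by omega) (by fun_prop) (by fun_prop) (by fun_prop), fun x => ?_⟩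
  set m := q.l x + 1 with hm
  let φ : Fin (Fintype.card G ^ (c + 2 * m)) ≃ (Fin (c + 2 * m) → G) :=
    finFunctionFinEquiv.symm.trans (Equiv.arrowCongr (Equiv.refl _) e)
  have hφ : ∀ u i, φ u i = gel (dig q.g u i) := by
    intro u i
    have hlt : dig q.g u i < Fintype.card G := by
      rw [hqg]
      exact Nat.mod_lt _ (by omega)
    simp only [gel, hlt, dif_pos]
    change e (finFunctionFinEquiv.symm u i) = _
    congr 1
    ext
    simp [dig, hqg]
  let π : (Fin (c + 2 * m) → ZMod p) →+ (Fin (2 * m) → ZMod p) × W p :=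
    { toFun := fun v => (fun j => v (Fin.natAdd c j), ε fun i => v (Fin.castAdd _ i))
      map_zero' := Prod.ext rfl ε.map_zero
      map_add' := fun v w => Prod.ext rfl (ε.map_add _ _) }
  have hπ : Function.Surjective π := by
    rintro ⟨a, w⟩
    obtain ⟨w, rfl⟩ := hε w
    refine ⟨Fin.append w a, Prod.ext (funext fun j => Fin.append_right _ _ j) ?_⟩
    change ε (fun i => Fin.append w a (Fin.castAdd _ i)) = ε w
    simp only [Fin.append_left]
  let R : (Fin (2 * m) → ZMod p) → Lab (ZMod p) → Lab (ZMod p) → Prop := fun δ =>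
    Rel m (Src (q.Gam x) (q.nv x) (q.d ^ q.M)) (ext δ)
  let Bd : (Fin (2 * m) → ZMod p) × W p → Prop := Bad 0 1 R
  have h0 : ¬ Bd 0 := not_bad_zero 0 1 R
  have hs : ∀ w, Bd w → Bd (-w) := fun w hw => hw.neg
  let X := (SimpleGraph.mulCayley (Fix.conn z lg π Bd)).comap φ
  have hadj : ∀ u v, X.Adj u v ↔ E.adj q x u v := by
    intro u v
    change (SimpleGraph.mulCayley (Fix.conn z lg π Bd)).Adj (φ u) (φ v) ↔ _
    rw [Fix.adj_conn hlg π h0 hs]
    refine and_congr ⟨fun h i hi => ?_, fun h i => ?_⟩ ?_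
    · simpa only [hφ] using h ⟨i, hi⟩
    · simpa only [hφ] using h i i.2
    · have e1 : ext (π fun i => lg (φ v i) - lg (φ u i)).1 = E.dl q x u v := by
        funext i
        unfold ext Ex.dl
        split_ifs with hi
        · change lg (φ v _) - lg (φ u _) = _
          rw [hφ, hφ]
          rfl
        · rfl
      have e2 : (π fun i => lg (φ v i) - lg (φ u i)).2 =
          E.low (u % q.g ^ E.c) (v % q.g ^ E.c) := by
        change ε _ = ε _
        congr 1
        funext i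
        beta_reduce
        rw [hφ, hφ, dig_mod _ _ i.2, dig_mod _ _ i.2]
        rfl
      change Bad0 0 1 _ (Rel m _ (ext _)) (Rel m _ (ext _)) _ ↔ _
      rw [ext_neg, ext_eq_zero, e1, e2]
  refine ⟨X, hadj, ⟨c + 2 * m, by omega, _, Fix.one_not_mem_conn z lg π h0,
    Fix.conn_inv hlg π hs,
    ⟨SimpleGraph.Iso.comap φ _⟩⟩, ?_⟩
  · have hD : 0 < q.d ^ q.M := pow_pos hd _
    have hk : 2 ≤ q.k x := by
      have h1 : (q.T x + 1) * q.J x + 5 < 2 ^ q.m x := Nat.lt_size_self _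
      have h2 : 2 ^ q.m x ≤ q.k x := Nat.pow_le_pow_left (hqg ▸ hg) _
      omega
    have hN : q.k x * q.d ^ q.M ≤ p ^ m := by
      calc _ ≤ 2 ^ q.l x := (Nat.lt_size_self _).le
        _ ≤ 2 ^ m := Nat.pow_le_pow_right (by norm_num) (by omega)
        _ ≤ _ := Nat.pow_le_pow_left hp.two_le _
    have hcard : Fintype.card (((Fin 3 → ZMod p) → ZMod p) × Lab (ZMod p) × Lab (ZMod p)) =
        p ^ (p ^ 3 + 18) := by
      simp only [Fintype.card_prod, Fintype.card_fun, ZMod.card, Fintype.card_fin]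
      ring
    have h5 : 5 ≤ Fintype.card (Fin 3 → ZMod p) := by
      simp only [Fintype.card_fun, ZMod.card, Fintype.card_fin]
      exact le_trans (by norm_num) (Nat.pow_le_pow_left hp.two_le 3)
    rw [hV, ← hq, SimpleGraph.colorable_congr (SimpleGraph.Iso.comap φ _),
      Fix.colorable_conn hlg π hπ h0 hs,
      ← src_iff (F := ZMod p) (Γ := q.Gam x) hD hk (fun s t h => ⟨h.1, h.2.1.1⟩) hN,
      ← csp_iff (by omega)]
    constructor
    · rintro ⟨L1, L2, h12⟩
      obtain ⟨col, hcol⟩ := col_of_sol (F := ZMod p) (B := Fin 3 → ZMod p) (R := R)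
        zero_ne_one L1 L2 h12
      exact ⟨fun a => Fintype.equivFinOfCardEq hcard (col a), fun a b hab e =>
        hcol a b hab ((Fintype.equivFinOfCardEq hcard).injective e)⟩
    · rintro ⟨col, hcol⟩
      exact sol_of_col (R := R) h5 zero_ne_one (by rw [hcard, Fintype.card_fin]) col hcol

theorem Base.step {G : Type*} [Group G] [Fintype G] [Nontrivial G] {K M : ℕ}
    {L : Set (List Bool)} (h : Base G K L)
    (hM : (8 * Fintype.card G * K + 2) * Fintype.card G ^ (8 * Fintype.card G * K + 2) ≤ M) :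
    Base G M L := by
  classical
  obtain ⟨N, adj, h1, h2, h3, h4⟩ := h
  obtain ⟨a, j, ha, hup, hlow⟩ := numbers (Fintype.one_lt_card (α := G)) K M hM
  obtain ⟨z, hz⟩ := exists_ne (1 : G)
  obtain ⟨B, hB⟩ : ∃ B, B = Fintype.card ((Fin a → G) × (Fin j → G)) := ⟨_, rfl⟩
  have hB0 : 0 < B := hB ▸ Fintype.card_pos
  let ψ : Fin B ≃ (Fin a → G) × (Fin j → G) := (Fintype.equivFinOfCardEq hB.symm).symm
  let χ : ℕ → (Fin a → G) × (Fin j → G) := fun r => if h : r < B then ψ ⟨r, h⟩ else 1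
  refine ⟨fun x => N x * B, fun x u v => (¬ Dif z ((χ (u % B)).1⁻¹ * (χ (v % B)).1) ∨
      ((χ (u % B)).1 = (χ (v % B)).1 ∧ (χ (u % B)).2 ≠ (χ (v % B)).2)) ∨
      (((χ (u % B)).1 = (χ (v % B)).1 ∧ (χ (u % B)).2 = (χ (v % B)).2) ∧
        adj x (u / B) (v / B)),
    PT.mul h1 (PT.const _), h2.mul (PB.const _), ?_, fun x => ?_⟩
  · have hb : ∀ y : List Bool × ℕ × ℕ, y.2.1 % B < B ∧ y.2.2 % B < B ∧ 0 < B ∧ 0 < B :=
      fun y => ⟨Nat.mod_lt _ hB0, Nat.mod_lt _ hB0, hB0, hB0⟩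
    refine PTP.or (PTP.table (fun r s _ _ => ¬ Dif z ((χ r).1⁻¹ * (χ s).1) ∨
      ((χ r).1 = (χ s).1 ∧ (χ r).2 ≠ (χ s).2)) B (by fun_prop) (by fun_prop) (PT.const 0)
      (PT.const 0) hb) (PTP.and (PTP.table (fun r s _ _ => (χ r).1 = (χ s).1 ∧
      (χ r).2 = (χ s).2) B (by fun_prop) (by fun_prop) (PT.const 0) (PT.const 0) hb) ?_)
    exact h3.comp (f := fun y : List Bool × ℕ × ℕ => (y.1, y.2.1 / B, y.2.2 / B)) (by fun_prop)
  · obtain ⟨X, hX, ⟨n, hn, C, c1, c2, ⟨f⟩⟩, hL⟩ := h4 x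
    let φ : Fin (N x * B) ≃ (Fin a → G) × (Fin j → G) × Fin (N x) :=
      finProdFinEquiv.symm.trans ((Equiv.prodComm _ _).trans
        ((Equiv.prodCongr ψ (Equiv.refl _)).trans (Equiv.prodAssoc _ _ _)))
    have hφ : ∀ u : Fin (N x * B), (φ u).1 = (χ (u % B)).1 ∧ (φ u).2.1 = (χ (u % B)).2 ∧
        ((φ u).2.2 : ℕ) = u / B := by
      intro u
      have : χ (u % B) = ψ u.modNat := dif_pos (Nat.mod_lt _ hB0)
      rw [this]
      exact ⟨rfl, rfl, rfl⟩
    obtain ⟨C', d1, d2, ⟨f'⟩⟩ := lex_cayley z ha j c1 c2 f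
    refine ⟨(lex z ha (Fin j → G) X).comap φ, fun u v => ?_,
      ⟨a + (j + n), by omega, C', d1, d2, ⟨(SimpleGraph.Iso.comap φ _).trans f'⟩⟩, ?_⟩
    · beta_reduce
      rw [← (hφ u).1, ← (hφ v).1, ← (hφ u).2.1, ← (hφ v).2.1, ← (hφ u).2.2, ← (hφ v).2.2,
        ← hX, or_assoc, and_assoc]
      rfl
    · rw [hL, SimpleGraph.colorable_congr (SimpleGraph.Iso.comap φ _)]
      constructor
      · intro hc
        refine (lex_upper (B := Fin j → G) hz ha hc).mono ?_
        simpa using hup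
      · intro hc
        by_contra hn
        have := lex_lower hz ha hn hc
        simp only [Fintype.card_fun, Fintype.card_fin] at this
        omega

theorem Base.out {G : Type*} [Group G] {K : ℕ} {L : Set (List Bool)} (h : Base G K L) :
    ∃ f : List Bool → List Bool, Nonempty (TM2ComputableInPolyTime id id f) ∧
      ∀ x, ∃ (N : ℕ) (X : SimpleGraph (Fin N)), f x = pair K.bits (adjBits X) ∧
        (∃ n ≥ 1, ∃ C : Set (Fin n → G), 1 ∉ C ∧ C⁻¹ = C ∧
          Nonempty (X ≃g SimpleGraph.mulCayley C)) ∧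
        (x ∈ L ↔ X.chromaticNumber ≤ K) := by
  classical
  obtain ⟨N, adj, h1, h2, h3, h4⟩ := h
  have hf : PT fun x => pair K.bits ((List.range (N x)).flatMap fun u =>
      (List.range (N x)).map fun v => decide (adj x u v)) := by
    refine Par.pt_pair (PT.const _) ?_
    refine PT.flatMap (g := fun x u => (List.range (N x)).map fun v => decide (adj x u v)) ?_
      (PT.range h1 h2)
    refine PT.map (g := fun (y : List Bool × ℕ) v => decide (adj y.1 y.2 v)) ?_
      (PT.range (by fun_prop) (ps_fst h2))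
    exact h3.comp (f := fun y : (List Bool × ℕ) × ℕ => (y.1.1, y.1.2, y.2)) (by fun_prop)
  refine ⟨fun x => pair K.bits ((List.range (N x)).flatMap fun u =>
      (List.range (N x)).map fun v => decide (adj x u v)),
    PT.computableInPolyTime id id _ hf fun _ => rfl, fun x => ?_⟩
  obtain ⟨X, hX, hC, hL⟩ := h4 x
  refine ⟨_, X, ?_, hC, by rw [hL, SimpleGraph.chromaticNumber_le_iff_colorable]⟩
  unfold adjBits
  beta_reduce
  congr 1
  have hr : ∀ n, List.range n = (List.finRange n).map Fin.val := fun n => by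
    apply List.ext_getElem <;> simp
  rw [hr, List.flatMap_map]
  congr 1
  funext u
  rw [List.map_map]
  congr 1
  funext v
  simp only [Function.comp, hX]

theorem main (G : Type*) [Group G] [Finite G] [Nontrivial G] :
    ∃ K₀ : ℕ, ∀ K ≥ K₀, ∀ L : Set (List Bool), InNP L → Base G K L := by
  obtain ⟨p, hp, hpd⟩ := Nat.exists_prime_and_dvd (Finite.one_lt_card (α := G)).ne'
  have := Fintype.ofFinite G
  exact ⟨_, fun K hK L hL => (base G hp hpd L hL).step hK⟩

end Pool.Agent.P.MP_ba7db8_lc.All
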